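import Mathlib

set_option autoImplicit false

namespace Pool.Agent.Results.MP_87030c_co.Shellable

open Finset Filter Topology

/-- The pure complex with facet set `A` (facets of size `d`) is shellable: the facets can be
listed without repetition so that, for every index `j` after the first, every maximal face of the
intersection of the simplex `F j` with the complex generated by the earlier facets has
exactly `d - 1` elements. -/
def IsShellable {α : Type} (d : ℕ) (A : Finset (Finset α)) : Prop :=
  ∃ (t : ℕ) (F : Fin t → Finset α), Function.Injective F ∧ (∀ G, G ∈ A ↔ ∃ j, F j = G) ∧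
    ∀ j : Fin t, 0 < j.val → ∀ σ : Finset α,
      Maximal (fun τ : Finset α => τ ⊆ F j ∧ ∃ i, i < j ∧ τ ⊆ F i) σ → σ.card = d - 1

/-- All collections of `d`-subsets of an `m`-set. -/
def Om (d m : ℕ) : Finset (Finset (Finset (Fin m))) := (powersetCard d univ).powerset

open Classical in
/-- The proportion of shellable ones among the pure complexes with facet size `d` on `Fin m`. -/
noncomputable def prob (d m : ℕ) : ℝ :=
  (((Om d m).filter (IsShellable d)).card : ℝ) / (Om d m).card

section det
variable {α : Type} [DecidableEq α]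

def Good (d : ℕ) (A : Finset (Finset α)) (F : Finset α) : Prop :=
  ∀ G ∈ A, ∃ H ∈ A, G ∩ F ⊆ H ∧ (H ∩ F).card + 1 = d

inductive Sh (d : ℕ) : Finset (Finset α) → Prop
  | empty : Sh d ∅
  | ins {A : Finset (Finset α)} {F : Finset α} : Sh d A → F ∉ A → Good d A F → Sh d (insert F A)

lemma Sh.toList {d : ℕ} {A : Finset (Finset α)} (h : Sh d A) :
    ∃ (t : ℕ) (F : ℕ → Finset α), (∀ i < t, ∀ j < t, F i = F j → i = j) ∧
      A = (range t).image F ∧ ∀ j < t, Good d ((range j).image F) (F j) := by
  induction h with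
  | empty => exact ⟨0, fun _ => ∅, by simp, by simp, by simp⟩
  | @ins A G _ hG hg ih =>
    obtain ⟨t, F, h1, h2, h3⟩ := ih
    have hc : ∀ j ≤ t, (range j).image (Function.update F t G) = (range j).image F := by
      intro j hj
      refine image_congr fun i hi => ?_
      have : i ≠ t := by
        have := mem_range.1 (mem_coe.1 hi); omega
      simp [this]
    have hn : ∀ i < t, F i ≠ G := by
      intro i hi h
      exact hG (h2 ▸ mem_image.2 ⟨i, mem_range.2 hi, h⟩)
    refine ⟨t + 1, Function.update F t G, ?_, ?_, ?_⟩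
    · intro i hi j hj h
      by_cases a : i = t <;> by_cases b : j = t
      · omega
      · subst a; simp [b] at h; exact absurd h.symm (hn j (by omega))
      · subst b; simp [a] at h; exact absurd h (hn i (by omega))
      · simp [a, b] at h; exact h1 i (by omega) j (by omega) h
    · rw [range_add_one, image_insert, hc t le_rfl, ← h2]; simp
    · intro j hj
      rw [hc j (by omega)]
      by_cases b : j = t
      · subst b; simpa [← h2] using hg
      · simpa [b] using h3 j (by omega)

lemma Sh.shellable {d : ℕ} {A : Finset (Finset α)} (h : Sh d A) : IsShellable d A := by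
  obtain ⟨t, F, h1, h2, h3⟩ := h.toList
  refine ⟨t, fun j => F j, fun i j h => Fin.ext (h1 i i.2 j j.2 h), ?_, ?_⟩
  · intro G
    rw [h2, mem_image]
    constructor
    · rintro ⟨j, hj, rfl⟩; exact ⟨⟨j, mem_range.1 hj⟩, rfl⟩
    · rintro ⟨j, rfl⟩; exact ⟨j, mem_range.2 j.2, rfl⟩
  · rintro j - σ ⟨⟨hs, i, hij, hi⟩, hmax⟩
    obtain ⟨H, hH, h4, h5⟩ := h3 j j.2 (F i) (mem_image.2 ⟨i, mem_range.2 hij, rfl⟩)
    obtain ⟨k, hk, rfl⟩ := mem_image.1 hH
    have hk' := mem_range.1 hk
    have h6 : σ ⊆ F k ∩ F j := subset_inter ((subset_inter hi hs).trans h4) hs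
    have h7 := hmax (y := F k ∩ F j)
      ⟨inter_subset_right, ⟨k, hk'.trans j.2⟩, hk', inter_subset_left⟩ h6
    have : σ = F k ∩ F j := Subset.antisymm h6 h7
    rw [this]; omega

def Cond (A : Finset (Finset α)) (F : Finset α) : Prop :=
  ∀ x ∈ F, ∀ y ∈ F, x ≠ y → (∃ H ∈ A, F.erase x ⊆ H) ∨ (∃ H ∈ A, F.erase y ⊆ H)

lemma good_of_cond {d : ℕ} {A A' : Finset (Finset α)} {F : Finset α} (hA : A ⊆ A')
    (hc : ∀ G ∈ A', G.card = d) (hF : F.card = d) (hn : F ∉ A') (h : Cond A F) : Good d A' F := by
  have key : ∀ x ∈ F, ∀ H ∈ A', F.erase x ⊆ H → (H ∩ F).card + 1 = d := by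
    intro x hx H hH hs
    have h1 : F.erase x ⊆ H ∩ F := subset_inter hs (erase_subset _ _)
    have h2 := card_le_card h1
    have h3 := card_erase_add_one hx
    have h4 : (H ∩ F).card < F.card := by
      refine card_lt_card ⟨inter_subset_right, fun h' => hn ?_⟩
      have : F = H := eq_of_subset_of_card_le (h'.trans inter_subset_left) (by rw [hc H hH, hF])
      rwa [this]
    omega
  have sub : ∀ (G : Finset α) x, x ∉ G → G ∩ F ⊆ F.erase x := by
    intro G x hx y hy
    rw [mem_inter] at hy
    exact mem_erase.2 ⟨fun h => hx (h ▸ hy.1), hy.2⟩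
  intro G hG
  obtain ⟨x, hx, hxG⟩ : ∃ x ∈ F, x ∉ G := by
    by_contra hh
    push Not at hh
    have : F = G := eq_of_subset_of_card_le hh (by rw [hc G hG, hF])
    exact hn (this ▸ hG)
  by_cases h2 : F.erase x ⊆ G
  · exact ⟨G, hG, inter_subset_left, key x hx G hG h2⟩
  · obtain ⟨y, hy, hyG⟩ := not_subset.1 h2
    rw [mem_erase] at hy
    rcases h x hx y hy.2 hy.1.symm with ⟨H, hH, hs⟩ | ⟨H, hH, hs⟩
    · exact ⟨H, hA hH, (sub G x hxG).trans hs, key x hx H (hA hH) hs⟩
    · exact ⟨H, hA hH, (sub G y hyG).trans hs, key y hy.2 H (hA hH) hs⟩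

lemma Sh.extend {d : ℕ} {A : Finset (Finset α)} (h : Sh d A) (hA : ∀ G ∈ A, G.card = d)
    (B : Finset (Finset α)) (hB : ∀ F ∈ B, F.card = d ∧ Cond A F) : Sh d (A ∪ B) := by
  induction B using Finset.induction_on with
  | empty => simpa using h
  | insert F B _ ih =>
    have ih' := ih fun G hG => hB G (mem_insert_of_mem hG)
    rw [union_insert]
    by_cases hF : F ∈ A ∪ B
    · rwa [insert_eq_of_mem hF]
    · refine Sh.ins ih' hF (good_of_cond subset_union_left ?_ (hB F (mem_insert_self _ _)).1 hF
        (hB F (mem_insert_self _ _)).2)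
      intro G hG
      rcases mem_union.1 hG with hG | hG
      · exact hA G hG
      · exact (hB G (mem_insert_of_mem hG)).1

lemma Sh.cone {d : ℕ} {L : Finset (Finset α)} (h : Sh d L) (v : α) (hv : ∀ G ∈ L, v ∉ G) :
    Sh (d + 1) (L.image (insert v)) := by
  induction h with
  | empty => simpa using Sh.empty
  | @ins A F _ hF hg ih =>
    have hv' : ∀ G ∈ A, v ∉ G := fun G hG => hv G (mem_insert_of_mem hG)
    have hvF := hv F (mem_insert_self _ _)
    rw [image_insert]
    refine Sh.ins (ih hv') ?_ ?_
    · intro h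
      obtain ⟨G, hG, h⟩ := mem_image.1 h
      have : G = F := by rw [← erase_insert (hv' G hG), h, erase_insert hvF]
      exact hF (this ▸ hG)
    · intro G' hG'
      obtain ⟨G, hG, rfl⟩ := mem_image.1 hG'
      obtain ⟨H, hH, h1, h2⟩ := hg G hG
      refine ⟨insert v H, mem_image_of_mem _ hH, ?_, ?_⟩
      · rw [← insert_inter_distrib]; exact insert_subset_insert _ h1
      · rw [← insert_inter_distrib, card_insert_of_notMem (fun h => hvF (mem_inter.1 h).2), h2]

def Ext (d : ℕ) (V : Finset α) (A : Finset (Finset α)) : Prop :=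
  ∀ T ⊆ V, T.card = d → ∃ x, x ∉ T ∧ ∀ y ∈ T, insert x (T.erase y) ∈ A

lemma sh_of_ext (d : ℕ) : ∀ (V : Finset α) (A : Finset (Finset α)),
    (∀ F ∈ A, F ⊆ V ∧ F.card = d + 1) → Ext (d + 1) V A → Sh (d + 1) A := by
  classical
  induction d with
  | zero =>
    intro V A hA _
    have := (Sh.empty (d := 0 + 1) (α := α)).extend (by simp) A fun F hF =>
      ⟨(hA F hF).2, fun x hx y hy hxy =>
        absurd (card_le_one.1 (hA F hF).2.le x hx y hy) hxy⟩
    simpa using this
  | succ d ih =>
    intro V A hA hE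
    rcases A.eq_empty_or_nonempty with rfl | ⟨F0, hF0⟩
    · exact Sh.empty
    obtain ⟨v, hv0⟩ : F0.Nonempty := card_pos.1 (by rw [(hA F0 hF0).2]; omega)
    have hvV : v ∈ V := (hA F0 hF0).1 hv0
    set S := A.filter (v ∈ ·) with hS
    have hL : Sh (d + 1) (S.image (·.erase v)) := by
      refine ih (V.erase v) _ ?_ ?_
      · intro G hG
        obtain ⟨F, hF, rfl⟩ := mem_image.1 hG
        rw [hS, mem_filter] at hF
        refine ⟨erase_subset_erase _ (hA F hF.1).1, ?_⟩
        have := card_erase_add_one hF.2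
        have := (hA F hF.1).2
        omega
      · intro T hT hc
        have hvT : v ∉ T := fun h => by simpa using hT h
        obtain ⟨x, hx, h⟩ := hE (insert v T) (insert_subset hvV (hT.trans (erase_subset _ _)))
          (by rw [card_insert_of_notMem hvT, hc])
        rw [mem_insert, not_or] at hx
        refine ⟨x, hx.2, fun y hy => mem_image.2 ⟨_, mem_filter.2 ⟨h y (mem_insert_of_mem hy),
          ?_⟩, ?_⟩⟩
        · have : v ≠ y := fun h => hvT (h ▸ hy)
          simp [this]
        · ext z
          simp only [mem_erase, mem_insert]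
          constructor
          · rintro ⟨h1, h2 | ⟨h2, h3 | h3⟩⟩
            · exact Or.inl h2
            · exact absurd h3 h1
            · exact Or.inr ⟨h2, h3⟩
          · rintro (h1 | ⟨h1, h2⟩)
            · exact ⟨h1 ▸ hx.1, Or.inl h1⟩
            · exact ⟨fun h => hvT (h ▸ h2), Or.inr ⟨h1, Or.inr h2⟩⟩
    have hS1 : Sh (d + 1 + 1) S := by
      have h1 := hL.cone v (by
        intro G hG
        obtain ⟨F, -, rfl⟩ := mem_image.1 hG
        simp)
      have h2 : (S.image (·.erase v)).image (insert v) = S := by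
        rw [image_image]
        conv_rhs => rw [← image_id (s := S)]
        exact image_congr fun F hF => insert_erase (mem_filter.1 (mem_coe.1 hF)).2
      rwa [h2] at h1
    have hSA : S ⊆ A := filter_subset _ _
    have hS2 := hS1.extend (fun G hG => (hA G (hSA hG)).2) (A.filter (Cond S))
      fun F hF => ⟨(hA F (mem_filter.1 hF).1).2, (mem_filter.1 hF).2⟩
    have hsub : S ∪ A.filter (Cond S) ⊆ A := union_subset hSA (filter_subset _ _)
    have hS3 := hS2.extend (fun G hG => (hA G (hsub hG)).2) A fun F hF => ⟨(hA F hF).2, by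
      intro x hx _ _ _
      left
      by_cases hv : v ∈ F.erase x
      · exact ⟨F, mem_union_left _ (mem_filter.2 ⟨hF, erase_subset _ _ hv⟩), erase_subset _ _⟩
      · obtain ⟨z, hz, h⟩ := hE (insert v (F.erase x))
          (insert_subset hvV ((erase_subset _ _).trans (hA F hF).1))
          (by rw [card_insert_of_notMem hv, card_erase_add_one hx, (hA F hF).2])
        have h1 := h v (mem_insert_self _ _)
        rw [erase_insert hv] at h1
        refine ⟨_, mem_union_right _ (mem_filter.2 ⟨h1, ?_⟩), subset_insert _ _⟩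
        have key : ∀ y ∈ insert z (F.erase x), y ≠ z →
            ∃ H ∈ S, (insert z (F.erase x)).erase y ⊆ H := by
          intro y hy hyz
          have hy' : y ∈ F.erase x := (mem_insert.1 hy).resolve_left hyz
          have hvy : v ≠ y := fun h => hv (h ▸ hy')
          refine ⟨_, mem_filter.2 ⟨h y (mem_insert_of_mem hy'), by simp [hvy]⟩, ?_⟩
          intro w hw
          simp only [mem_erase, mem_insert] at hw ⊢
          tauto
        intro y hy y' hy' hne
        by_cases hyz : y = z
        · exact Or.inr (key y' hy' fun h => hne (hyz.trans h.symm))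
        · exact Or.inl (key y hy hyz)⟩
    rwa [union_eq_right.2 hsub] at hS3

end det

def tog {m : ℕ} (T : Finset (Fin m)) (t : Fin m → T → Bool) : Finset (Finset (Fin m)) :=
  ((univ : Finset (Fin m × T)).filter fun p => p.1 ∉ T ∧ t p.1 p.2 = true).image
    fun p => insert p.1 (T.erase p.2)

lemma mem_tog {m : ℕ} (T : Finset (Fin m)) (t : Fin m → T → Bool) {x : Fin m} (hx : x ∉ T)
    (y : T) : insert x (T.erase y) ∈ tog T t ↔ t x y = true := by
  constructor
  · intro h
    obtain ⟨⟨x', y'⟩, hp, h⟩ := mem_image.1 h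
    obtain ⟨-, hx', ht⟩ := mem_filter.1 hp
    simp only at h hx' ht
    have h1 : x = x' := by
      have : x ∈ insert x' (T.erase y') := by rw [h]; exact mem_insert_self _ _
      rcases mem_insert.1 this with h2 | h2
      · exact h2
      · exact absurd (erase_subset _ _ h2) hx
    have h2 : y = y' := by
      by_contra hne
      have : (y : Fin m) ∈ insert x (T.erase y) := by
        rw [← h]
        exact mem_insert_of_mem (mem_erase.2 ⟨fun h => hne (Subtype.ext h), y.2⟩)
      rcases mem_insert.1 this with h2 | h2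
      · exact hx (h2 ▸ y.2)
      · simp at h2
    rw [h1, h2]; exact ht
  · intro h
    exact mem_image.2 ⟨(x, y), mem_filter.2 ⟨mem_univ _, hx, h⟩, rfl⟩

lemma tog_mem {d m : ℕ} (T : Finset (Fin m)) (hT : T.card = d) (t : Fin m → T → Bool) :
    tog T t ⊆ powersetCard d univ := by
  intro G hG
  obtain ⟨⟨x, y⟩, hp, rfl⟩ := mem_image.1 hG
  obtain ⟨-, hx, -⟩ := mem_filter.1 hp
  rw [mem_powersetCard]
  refine ⟨subset_univ _, ?_⟩
  rw [card_insert_of_notMem (fun h => hx (erase_subset _ _ h)), card_erase_add_one y.2, hT]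

def Bad {m : ℕ} (T : Finset (Fin m)) (A : Finset (Finset (Fin m))) : Prop :=
  ∀ x, x ∉ T → ¬ ∀ y ∈ T, insert x (T.erase y) ∈ A

open Classical in
lemma count_t {d m : ℕ} (hd : 1 ≤ d) (T : Finset (Fin m)) (hT : T.card = d)
    (A : Finset (Finset (Fin m))) :
    (univ.filter fun t : Fin m → T → Bool => Bad T (symmDiff A (tog T t))).card
      ≤ (2 ^ d) ^ d * (2 ^ d - 1) ^ m := by
  let F : Fin m → Finset (T → Bool) := fun w =>
    if w ∈ T then univ else univ.erase fun y => decide (insert w (T.erase y) ∉ A)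
  have h1 : (univ.filter fun t : Fin m → T → Bool => Bad T (symmDiff A (tog T t)))
      ⊆ Fintype.piFinset F := by
    intro t ht
    rw [mem_filter] at ht
    rw [Fintype.mem_piFinset]
    intro w
    by_cases hw : w ∈ T
    · simp only [F, hw, if_true, mem_univ]
    · simp only [F, hw, if_false, mem_erase, mem_univ, and_true]
      intro h
      apply ht.2 w hw
      intro y hy
      have h' := congrFun h ⟨y, hy⟩
      have h2 := mem_tog T t hw ⟨y, hy⟩
      simp only at h2 h'
      rw [mem_symmDiff, h2, h']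
      by_cases hg : insert w (T.erase y) ∈ A <;> simp [hg]
  refine (card_le_card h1).trans ?_
  rw [Fintype.card_piFinset]
  have hN : 2 ≤ 2 ^ d := by
    calc 2 = 2 ^ 1 := by norm_num
      _ ≤ 2 ^ d := Nat.pow_le_pow_right (by norm_num) hd
  have h2 : ∀ w ∈ (univ : Finset (Fin m)), (F w).card ≤
      (if w ∈ T then 2 ^ d else 1) * (2 ^ d - 1) := by
    intro w _
    by_cases hw : w ∈ T
    · simp only [F, hw, if_true]
      rw [card_univ, Fintype.card_fun, Fintype.card_coe, hT, Fintype.card_bool]
      exact Nat.le_mul_of_pos_right _ (by omega)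
    · simp only [F, hw, if_false]
      rw [card_erase_of_mem (mem_univ _), card_univ, Fintype.card_fun, Fintype.card_coe, hT,
        Fintype.card_bool, one_mul]
  refine (prod_le_prod' h2).trans ?_
  rw [prod_mul_distrib, prod_ite_mem, univ_inter, prod_const, prod_const, hT]
  simp

open Classical in
lemma count_bad {d m : ℕ} (hd : 1 ≤ d) (T : Finset (Fin m)) (hT : T.card = d) :
    ((Om d m).filter fun A => Bad T A).card * (2 ^ d) ^ m
      ≤ (Om d m).card * ((2 ^ d) ^ d * (2 ^ d - 1) ^ m) := by
  have hO : ∀ t : Fin m → T → Bool, ∀ A ∈ Om d m, symmDiff A (tog T t) ∈ Om d m := by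
    intro t A hA
    rw [Om, mem_powerset] at hA ⊢
    intro G hG
    rcases mem_symmDiff.1 hG with h | h
    · exact hA h.1
    · exact tog_mem T hT t h.1
  have h1 : ∀ t : Fin m → T → Bool,
      ((Om d m).filter fun A => Bad T A).card =
      ((Om d m).filter fun A => Bad T (symmDiff A (tog T t))).card := by
    intro t
    refine card_bij' (fun G _ => symmDiff G (tog T t)) (fun G _ => symmDiff G (tog T t))
      ?_ ?_ ?_ ?_
    · intro G hG
      rw [mem_filter] at hG ⊢
      exact ⟨hO t G hG.1, by rw [symmDiff_symmDiff_cancel_right]; exact hG.2⟩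
    · intro G hG
      rw [mem_filter] at hG ⊢
      exact ⟨hO t G hG.1, hG.2⟩
    · intro G _
      exact symmDiff_symmDiff_cancel_right _ _
    · intro G _
      exact symmDiff_symmDiff_cancel_right _ _
  have h2 : ((Om d m).filter fun A => Bad T A).card * (2 ^ d) ^ m =
      ∑ t : Fin m → T → Bool, ((Om d m).filter fun A =>
        Bad T (symmDiff A (tog T t))).card := by
    rw [← sum_congr rfl fun t _ => h1 t]
    simp [mul_comm, hT]
  rw [h2]
  simp only [card_filter]
  rw [sum_comm]
  simp only [← card_filter]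
  refine (sum_le_sum fun G _ => count_t hd T hT G).trans ?_
  simp

open Classical in
lemma count_not {d m : ℕ} (hd : 1 ≤ d) :
    ((Om d m).filter fun A => ¬ IsShellable d A).card * (2 ^ d) ^ m
      ≤ m ^ d * ((Om d m).card * ((2 ^ d) ^ d * (2 ^ d - 1) ^ m)) := by
  have h1 : ((Om d m).filter fun A => ¬ IsShellable d A) ⊆
      (powersetCard d univ).biUnion fun T => (Om d m).filter fun A => Bad T A := by
    intro A hA
    rw [mem_filter] at hA
    obtain ⟨e, rfl⟩ : ∃ e, d = e + 1 := ⟨d - 1, by omega⟩
    have h : ¬ Ext (e + 1) univ A := fun h => hA.2 (sh_of_ext e univ A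
      (fun F hF => mem_powersetCard.1 (mem_powerset.1 hA.1 hF)) h).shellable
    unfold Ext at h
    simp only [not_forall, not_exists, not_and] at h
    obtain ⟨T, h1, h2, hs⟩ := h
    rw [mem_biUnion]
    refine ⟨T, mem_powersetCard.2 ⟨h1, h2⟩, mem_filter.2 ⟨hA.1, fun w hw hh => ?_⟩⟩
    obtain ⟨y, hy, hi⟩ := hs w hw
    exact hi (hh y hy)
  have h2 := (card_le_card h1).trans card_biUnion_le
  refine (Nat.mul_le_mul_right _ h2).trans ?_
  rw [sum_mul]
  refine (sum_le_sum fun T hT => count_bad hd T (mem_powersetCard.1 hT).2).trans ?_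
  rw [sum_const, smul_eq_mul]
  refine Nat.mul_le_mul_right _ ?_
  rw [card_powersetCard, card_univ, Fintype.card_fin]
  exact Nat.choose_le_pow _ _

open Classical in
noncomputable def bad (d m : ℕ) : ℝ :=
  (((Om d m).filter fun A => ¬ IsShellable d A).card : ℝ) / (Om d m).card

lemma Om_pos (d m : ℕ) : (0 : ℝ) < (Om d m).card := by
  exact_mod_cast card_pos.2 ⟨∅, empty_mem_powerset _⟩

lemma bad_tendsto {d : ℕ} (hd : 1 ≤ d) : Tendsto (bad d) atTop (𝓝 0) := by
  classical
  have hN : (1 : ℝ) ≤ 2 ^ d := one_le_pow₀ (by norm_num)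
  have hN' : (0 : ℝ) < 2 ^ d := by positivity
  have h := (tendsto_pow_const_mul_const_pow_of_abs_lt_one d (r := (2 ^ d - 1) / 2 ^ d)
    (by
      rw [abs_of_nonneg (div_nonneg (by linarith) hN'.le), div_lt_one hN']
      linarith)).const_mul (((2 : ℝ) ^ d) ^ d)
  rw [mul_zero] at h
  refine squeeze_zero (fun n => by unfold bad; positivity) (fun m => ?_) h
  have h1 := count_not (m := m) hd
  have hpos := Om_pos d m
  unfold bad
  rw [div_le_iff₀ hpos, div_pow]
  have h8 : (0 : ℝ) < (2 ^ d) ^ m := by positivity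
  have h2 : (((Om d m).filter fun A => ¬ IsShellable d A).card : ℝ) * (2 ^ d) ^ m
      ≤ m ^ d * ((Om d m).card * ((2 ^ d) ^ d * (2 ^ d - 1) ^ m)) := by
    have h3 : ((2 ^ d - 1 : ℕ) : ℝ) = 2 ^ d - 1 := by
      rw [Nat.cast_sub Nat.one_le_two_pow]; simp
    rw [← h3]
    exact_mod_cast h1
  rw [← le_div_iff₀ h8] at h2
  refine h2.trans (le_of_eq ?_)
  ring

lemma prob_eq (d m : ℕ) : prob d m = 1 - bad d m := by
  classical
  have hpos := Om_pos d m
  unfold prob bad
  rw [eq_sub_iff_add_eq, ← add_div, div_eq_one_iff_eq hpos.ne']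
  exact_mod_cast card_filter_add_card_filter_not _

theorem result (d : ℕ) (hd : 1 ≤ d) : Tendsto (prob d) atTop (𝓝 1) := by
  have := (bad_tendsto hd).const_sub 1
  rw [sub_zero] at this
  exact this.congr fun n => (prob_eq d n).symm

end Pool.Agent.Results.MP_87030c_co.Shellable
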